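import Pool.Agent.Helper67.KPG.St2

/-!
# Module HPC of project KP (MP_26be5b_ag): the calculus of homogeneous polynomial maps
-/

set_option autoImplicit false

namespace Pool.Agent.Helper95.KPG

open Pool.Agent.Helper67.NO Pool.Agent.Helper52.KP Pool.Agent.Helper67.KPG

universe u

variable {g : Type u} [LieRing g] [LieAlgebra ℂ g] [FiniteDimensional ℂ g]

theorem hp_zero (k : ℕ) : HP k (fun _ : g => (0 : ℂ)) :=
  ⟨0, MvPolynomial.isHomogeneous_zero _ _ _, fun x => by simp [pev]⟩

theorem hp_const (c : ℂ) : HP 0 (fun _ : g => c) :=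
  ⟨MvPolynomial.C c, MvPolynomial.isHomogeneous_C _ _, fun x => by simp [pev]⟩

theorem hp_co (i : Fin (Module.finrank ℂ g)) : HP 1 (fun x : g => co x i) :=
  ⟨MvPolynomial.X i, MvPolynomial.isHomogeneous_X _ _, fun x => by simp [pev, co]⟩

theorem hp_add {k : ℕ} {F G : g → ℂ} (hF : HP k F) (hG : HP k G) :
    HP k (fun x => F x + G x) := by
  obtain ⟨P, hP, hP'⟩ := hF
  obtain ⟨Q, hQ, hQ'⟩ := hG
  exact ⟨P + Q, hP.add hQ, fun x => by simp [pev, hP' x, hQ' x]⟩

theorem hp_mul {k l : ℕ} {F G : g → ℂ} (hF : HP k F) (hG : HP l G) :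
    HP (k + l) (fun x => F x * G x) := by
  obtain ⟨P, hP, hP'⟩ := hF
  obtain ⟨Q, hQ, hQ'⟩ := hG
  exact ⟨P * Q, hP.mul hQ, fun x => by simp [pev, hP' x, hQ' x]⟩

theorem hp_smul {k : ℕ} (c : ℂ) {F : g → ℂ} (hF : HP k F) : HP k (fun x => c * F x) := by
  have := hp_mul (hp_const (g := g) c) hF
  rwa [zero_add] at this

theorem hp_congr {k : ℕ} {F G : g → ℂ} (hF : HP k F) (h : ∀ x, G x = F x) : HP k G := by
  obtain ⟨P, hP, hP'⟩ := hF
  exact ⟨P, hP, fun x => by rw [h x, hP' x]⟩

theorem hp_sum {ι : Type} (s : Finset ι) {k : ℕ} {F : ι → g → ℂ} (h : ∀ i ∈ s, HP k (F i)) :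
    HP k (fun x => ∑ i ∈ s, F i x) := by
  classical
  induction s using Finset.induction_on with
  | empty => simpa using hp_zero (g := g) k
  | insert a s ha ih =>
    have h1 := hp_add (h a (Finset.mem_insert_self a s))
      (ih fun i hi => h i (Finset.mem_insert_of_mem hi))
    exact hp_congr h1 fun x => Finset.sum_insert ha

theorem hp_prod {ι : Type} (s : Finset ι) {k : ℕ} {F : ι → g → ℂ} (h : ∀ i ∈ s, HP k (F i)) :
    HP (s.card * k) (fun x => ∏ i ∈ s, F i x) := by
  classical
  induction s using Finset.induction_on with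
  | empty => simpa using hp_const (g := g) 1
  | insert a s ha ih =>
    have h1 := hp_mul (h a (Finset.mem_insert_self a s))
      (ih fun i hi => h i (Finset.mem_insert_of_mem hi))
    rw [Finset.card_insert_of_notMem ha, Nat.succ_mul, add_comm]
    exact hp_congr h1 fun x => Finset.prod_insert ha

theorem hp_pow {k : ℕ} (n : ℕ) {F : g → ℂ} (hF : HP k F) : HP (n * k) (fun x => F x ^ n) := by
  induction n with
  | zero => simpa using hp_const (g := g) 1
  | succ n ih =>
    have h1 := hp_mul ih hF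
    rw [Nat.succ_mul]
    exact hp_congr h1 fun x => pow_succ _ _

theorem hp_lin (φ : g →ₗ[ℂ] ℂ) : HP 1 (fun x => φ x) := by
  have h1 : HP 1 (fun x : g => ∑ i, φ (Module.finBasis ℂ g i) * co x i) :=
    hp_sum _ fun i _ => hp_smul _ (hp_co i)
  refine hp_congr h1 fun x => ?_
  conv_lhs => rw [← (Module.finBasis ℂ g).sum_repr x]
  simp only [map_sum, map_smul, smul_eq_mul, co]
  exact Finset.sum_congr rfl fun i _ => mul_comm _ _

theorem co_smul (c : ℂ) (x : g) (i : Fin (Module.finrank ℂ g)) : co (c • x) i = c * co x i := by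
  simp [co]

theorem co_add (x y : g) (i : Fin (Module.finrank ℂ g)) : co (x + y) i = co x i + co y i := by
  simp [co]

theorem hp_hom {k : ℕ} {F : g → ℂ} (hF : HP k F) (c : ℂ) (x : g) : F (c • x) = c ^ k * F x := by
  obtain ⟨P, hP, hP'⟩ := hF
  rw [hP', hP', pev, pev]
  have : (fun i => (Module.finBasis ℂ g).repr (c • x) i) =
      fun i => c * (Module.finBasis ℂ g).repr x i := by
    funext i; simp
  rw [this, MvPolynomial.eval_eq', MvPolynomial.eval_eq', Finset.mul_sum]
  refine Finset.sum_congr rfl fun d hd => ?_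
  have h1 : ∑ i, d i = k := by
    have h2 := hP (MvPolynomial.mem_support_iff.mp hd)
    rw [← h2]
    simp [Finsupp.weight_apply, Finsupp.sum_fintype]
  have h3 : ∏ i, (c * (Module.finBasis ℂ g).repr x i) ^ d i =
      c ^ k * ∏ i, ((Module.finBasis ℂ g).repr x i) ^ d i := by
    simp only [mul_pow]
    rw [Finset.prod_mul_distrib, Finset.prod_pow_eq_pow_sum, h1]
  rw [h3]
  ring

theorem hp_det {k n : ℕ} {M : g → Matrix (Fin n) (Fin n) ℂ} (h : ∀ i j, HP k (fun x => M x i j)) :
    HP (n * k) (fun x => (M x).det) := by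
  have h1 : HP (n * k) (fun x => ∑ σ : Equiv.Perm (Fin n),
      ((Equiv.Perm.sign σ : ℤ) : ℂ) * ∏ i, M x (σ i) i) := by
    refine hp_sum _ fun σ _ => hp_smul _ ?_
    have := hp_prod (Finset.univ : Finset (Fin n)) (k := k) (F := fun i x => M x (σ i) i)
      fun i _ => h _ _
    rwa [Finset.card_univ, Fintype.card_fin] at this
  refine hp_congr h1 fun x => ?_
  rw [Matrix.det_apply']

theorem hp_adj {k n : ℕ} {M : g → Matrix (Fin n) (Fin n) ℂ} (h : ∀ i j, HP k (fun x => M x i j))
    (i j : Fin n) : HP ((n - 1) * k) (fun x => (M x).adjugate i j) := by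
  obtain _ | n := n
  · exact i.elim0
  · have h1 : HP (n * k) (fun x => (-1 : ℂ) ^ (j + i : ℕ) *
        ((M x).submatrix j.succAbove i.succAbove).det) :=
      hp_smul _ (hp_det fun a b => h _ _)
    exact hp_congr h1 fun x => Matrix.adjugate_fin_succ_eq_det_submatrix _ _ _

theorem hp_comp {k l : ℕ} {F : g → ℂ} {G : g → g} (hF : HP k F) (hG : HV l G) :
    HP (k * l) (fun x => F (G x)) := by
  obtain ⟨P, hP, hP'⟩ := hF
  choose Q hQ hQ' using hG
  refine ⟨MvPolynomial.bind₁ Q P, ?_, fun x => ?_⟩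
  · have := hP.aeval Q hQ
    rw [mul_comm] at this
    exact this
  · show F (G x) = _
    rw [hP', pev, pev]
    have h1 := MvPolynomial.eval₂Hom_bind₁ (RingHom.id ℂ)
      (fun i => (Module.finBasis ℂ g).repr x i) Q P
    refine Eq.trans ?_ h1.symm
    show MvPolynomial.eval _ P = MvPolynomial.eval _ P
    congr 2
    funext i
    exact hQ' i x

theorem hv_const (v : g) : HV 0 (fun _ : g => v) := fun _ => hp_const _

theorem hv_id : HV 1 (fun x : g => x) := fun i => hp_co i

theorem hv_add {k : ℕ} {F G : g → g} (hF : HV k F) (hG : HV k G) : HV k (fun x => F x + G x) :=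
  fun i => hp_congr (hp_add (hF i) (hG i)) fun _ => co_add _ _ _

theorem hv_zero (k : ℕ) : HV k (fun _ : g => (0 : g)) :=
  fun i => hp_congr (hp_zero k) fun x => by simp [co]

theorem hv_sum {ι : Type} (s : Finset ι) {k : ℕ} {F : ι → g → g} (h : ∀ i ∈ s, HV k (F i)) :
    HV k (fun x => ∑ i ∈ s, F i x) := fun j => by
  have := hp_sum s (k := k) (F := fun i x => co (F i x) j) fun i hi => h i hi j
  exact hp_congr this fun x => by simp [co]

theorem hv_smul {k l : ℕ} {a : g → ℂ} {F : g → g} (ha : HP k a) (hF : HV l F) :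
    HV (k + l) (fun x => a x • F x) :=
  fun i => hp_congr (hp_mul ha (hF i)) fun _ => co_smul _ _ _

theorem hv_fun {k : ℕ} (φ : g →ₗ[ℂ] ℂ) {F : g → g} (hF : HV k F) : HP k (fun x => φ (F x)) := by
  have := hp_comp (hp_lin φ) hF
  rwa [one_mul] at this

theorem hv_lin {k : ℕ} (L : g →ₗ[ℂ] g) {F : g → g} (hF : HV k F) : HV k (fun x => L (F x)) :=
  fun i => hv_fun (((Module.finBasis ℂ g).coord i).comp L) hF

theorem hv_hom {k : ℕ} {F : g → g} (hF : HV k F) (c : ℂ) (x : g) : F (c • x) = c ^ k • F x := by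
  apply (Module.finBasis ℂ g).repr.injective
  ext i
  have h1 := hp_hom (hF i) c x
  have h2 := co_smul (c ^ k) (F x) i
  simp only [co] at h1 h2
  rw [h1, ← h2]

theorem hl_app {k l : ℕ} {F : g → (g →ₗ[ℂ] g)} {G : g → g} (hF : HL k F) (hG : HV l G) :
    HV (k + l) (fun x => F x (G x)) := by
  have h1 : HV (k + l) (fun x => ∑ j, co (G x) j • F x (Module.finBasis ℂ g j)) := by
    refine hv_sum _ fun j _ => ?_
    rw [add_comm]
    exact hv_smul (hG j) (hF _)
  have h2 : (fun x => F x (G x)) = fun x => ∑ j, co (G x) j • F x (Module.finBasis ℂ g j) := by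
    funext x
    conv_lhs => rw [← (Module.finBasis ℂ g).sum_repr (G x)]
    simp only [map_sum, map_smul, co]
  rw [h2]
  exact h1

theorem hl_ad {k : ℕ} {F : g → g} (hF : HV k F) :
    HL k (fun x => (LieAlgebra.ad ℂ g (F x) : g →ₗ[ℂ] g)) := fun y => by
  have := hv_lin (-(LieAlgebra.ad ℂ g y : g →ₗ[ℂ] g)) hF
  have h2 : (fun x => (LieAlgebra.ad ℂ g (F x) : g →ₗ[ℂ] g) y) =
      fun x => (-(LieAlgebra.ad ℂ g y : g →ₗ[ℂ] g)) (F x) := by
    funext x
    simp
  show HV k (fun x => (LieAlgebra.ad ℂ g (F x) : g →ₗ[ℂ] g) y)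
  rw [h2]
  exact this

theorem hv_br {k l : ℕ} {F G : g → g} (hF : HV k F) (hG : HV l G) :
    HV (k + l) (fun x => ⁅F x, G x⁆) := hl_app (hl_ad hF) hG

theorem hl_mul {k l : ℕ} {F G : g → (g →ₗ[ℂ] g)} (hF : HL k F) (hG : HL l G) :
    HL (k + l) (fun x => F x ∘ₗ G x) := fun y => by
  have := hl_app hF (hG y)
  exact this

theorem hl_id : HL 0 (fun _ : g => LinearMap.id) := fun y => hv_const y

theorem hl_pow {k : ℕ} (n : ℕ) {F : g → (g →ₗ[ℂ] g)} (hF : HL k F) :
    HL (n * k) (fun x => (F x : Module.End ℂ g) ^ n) := by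
  induction n with
  | zero =>
    rw [zero_mul]
    exact hl_id
  | succ n ih =>
    rw [Nat.succ_mul]
    have := hl_mul ih hF
    intro y
    have h2 := this y
    simp only [pow_succ]
    exact h2

theorem hHPC : StHPC.{u} := by
  intro g _ _ _
  exact
    { zero := hp_zero
      const := hp_const
      lin := hp_lin
      add := fun k F G => hp_add
      mul := fun k l F G => hp_mul
      pow := fun k n F => hp_pow n
      smul := fun k c F => hp_smul c
      sum := fun ι s k F => hp_sum s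
      hom := fun k F => hp_hom
      det := fun k n M => hp_det
      adj := fun k n M => hp_adj
      vid := hv_id
      vconst := hv_const
      vadd := fun k F G => hv_add
      vsum := fun ι s k F => hv_sum s
      vsmul := fun k l a F => hv_smul
      vlin := fun k L F => hv_lin L
      vfun := fun k φ F => hv_fun φ
      vbr := fun k l F G => hv_br
      vhom := fun k F => hv_hom
      vcomp := fun k l F G => hp_comp
      lid := hl_id
      ladd := fun k F G hF hG y => hv_add (hF y) (hG y)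
      lsum := fun ι s k F h y => by
        have := hv_sum s (k := k) (F := fun i x => F i x y) fun i hi => h i hi y
        simpa [LinearMap.sum_apply] using this
      lsmul := fun k l a F ha hF y => hv_smul ha (hF y)
      lad := fun k F => hl_ad
      lapp := fun k l F G => hl_app
      lmul := fun k l F G => hl_mul
      lpow := fun k n F => hl_pow n }

end Pool.Agent.Helper95.KPG
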